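import Pool.Agent.Y262.QE.Def

/-!
# Project EG: definitions

The geodesic flow of a closed surface which is given as a quotient of a plane domain with a conformal
metric `exp (2 φ) |dz|²`, its unit tangent bundle, the Liouville measure and ergodicity.
-/

set_option autoImplicit false

open Set Filter Topology MeasureTheory
open scoped ContDiff

noncomputable section

namespace Pool.Agent.Y262.EG

/-- A point `z` of the plane and the angle of a direction: the unit vector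
`exp (- φ z) exp (i θ)` at `z` for the metric `exp (2 φ) |dz|²`. -/
abbrev Y : Type := ℂ × ℝ

/-- the partial derivative with respect to `x` -/
def px (φ : ℂ → ℝ) (z : ℂ) : ℝ := fderiv ℝ φ z 1

/-- the partial derivative with respect to `y` -/
def py (φ : ℂ → ℝ) (z : ℂ) : ℝ := fderiv ℝ φ z Complex.I

/-- the Gauss curvature of the metric `exp (2 φ) |dz|²` -/
def curv (φ : ℂ → ℝ) (z : ℂ) : ℝ := -(Real.exp (-2 * φ z) * (px (px φ) z + py (py φ) z))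

/-- the geodesic vector field of the metric `exp (2 φ) |dz|²` -/
def XX (φ : ℂ → ℝ) (p : Y) : Y :=
  (⟨Real.exp (-φ p.1) * Real.cos p.2, Real.exp (-φ p.1) * Real.sin p.2⟩,
    Real.exp (-φ p.1) * (-(px φ p.1) * Real.sin p.2 + py φ p.1 * Real.cos p.2))

/-- the horizontal vector field -/
def HH (φ : ℂ → ℝ) (p : Y) : Y :=
  (⟨-(Real.exp (-φ p.1) * Real.sin p.2), Real.exp (-φ p.1) * Real.cos p.2⟩,
    -(Real.exp (-φ p.1) * (px φ p.1 * Real.cos p.2 + py φ p.1 * Real.sin p.2)))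

/-- the vertical vector field -/
def VV : Y := (0, 1)

/-- the unit vectors at the points of `Ω` -/
def YO (Ω : Set ℂ) : Set Y := {p | p.1 ∈ Ω}

/-- `Fl` is the geodesic flow of the metric `exp (2 φ) |dz|²` on `Ω` -/
structure IsGeo (Ω : Set ℂ) (φ : ℂ → ℝ) (Fl : ℝ → Y → Y) : Prop where
  maps : ∀ t, ∀ p ∈ YO Ω, Fl t p ∈ YO Ω
  zero : ∀ p ∈ YO Ω, Fl 0 p = p
  ode : ∀ t, ∀ p ∈ YO Ω, HasDerivAt (fun τ => Fl τ p) (XX φ (Fl t p)) t
  smooth : ContDiffOn ℝ ∞ (fun a : ℝ × Y => Fl a.1 a.2) {a | a.2 ∈ YO Ω}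

section

variable {M P : Type}

/-- The unit vectors `p` and `p'` (at points of `Ω`) define the same unit vector of the surface: there
is a local isometry `γ` over the surface which maps `p` to `p'`. -/
def Germ (Ω : Set ℂ) (φ : ℂ → ℝ) (pr : ℂ → M) (p p' : Y) : Prop :=
  ∃ (r : ℝ) (γ : ℂ → ℂ), 0 < r ∧ Metric.ball p.1 r ⊆ Ω ∧
    DifferentiableOn ℂ γ (Metric.ball p.1 r) ∧ γ p.1 = p'.1 ∧
    (∀ ζ ∈ Metric.ball p.1 r, γ ζ ∈ Ω ∧ pr (γ ζ) = pr ζ ∧ deriv γ ζ ≠ 0 ∧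
      φ (γ ζ) + Real.log ‖deriv γ ζ‖ = φ ζ) ∧
    Complex.exp (p'.2 * Complex.I) * ‖deriv γ p.1‖ = Complex.exp (p.2 * Complex.I) * deriv γ p.1

/-- The surface `M` is the quotient of the plane domain `Ω` with the metric `exp (2 φ) |dz|²` by the
covering `pr`, and `P` is its unit tangent bundle: `q (z, θ)` is the unit vector with the direction
`exp (i θ)` at the point `pr z`. -/
structure IsUT [TopologicalSpace M] [TopologicalSpace P] (Ω : Set ℂ) (φ : ℂ → ℝ) (pr : ℂ → M)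
    (q : Y → P) : Prop where
  opn : IsOpen Ω
  smooth : ContDiffOn ℝ ∞ φ Ω
  contp : ContinuousOn pr Ω
  opnp : ∀ O : Set ℂ, IsOpen O → O ⊆ Ω → IsOpen (pr '' O)
  surjp : pr '' Ω = univ
  injp : ∀ z ∈ Ω, ∃ r : ℝ, 0 < r ∧ Metric.ball z r ⊆ Ω ∧ InjOn pr (Metric.ball z r)
  contq : ContinuousOn q (YO Ω)
  opnq : ∀ O : Set Y, IsOpen O → O ⊆ YO Ω → IsOpen (q '' O)
  surjq : q '' YO Ω = univ
  rel : ∀ p ∈ YO Ω, ∀ p' ∈ YO Ω, (q p = q p' ↔ Germ Ω φ pr p p')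
  deck : ∀ z ∈ Ω, ∀ w ∈ Ω, pr z = pr w → ∀ θ : ℝ, ∃ θ' : ℝ, Germ Ω φ pr (z, θ) (w, θ')

/-- `m` is the Liouville measure on the unit tangent bundle -/
def IsLiou [MeasurableSpace P] (Ω : Set ℂ) (φ : ℂ → ℝ) (q : Y → P) (m : Measure P) : Prop :=
  ∀ B : Set Y, MeasurableSet B → B ⊆ YO Ω → InjOn q B →
    m (q '' B) = ∫⁻ p in B, ENNReal.ofReal (Real.exp (2 * φ p.1))

/-- ergodicity of the geodesic flow: a set of unit vectors of the surface which is invariant under the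
geodesic flow is null or its complement is null -/
def Erg [MeasurableSpace P] (Ω : Set ℂ) (q : Y → P) (m : Measure P) (Fl : ℝ → Y → Y) : Prop :=
  ∀ A : Set P, MeasurableSet A → (∀ t, ∀ p ∈ YO Ω, (q (Fl t p) ∈ A ↔ q p ∈ A)) →
    m A = 0 ∨ m Aᶜ = 0

/-- the strip `- δ < Re z < L + δ` -/
def Stp (L δ : ℝ) : Set ℂ := {z | -δ < z.re ∧ z.re < L + δ}

/-- The class of surfaces: the curvature is nonpositive, it vanishes exactly on the closed flat
cylinder `0 ≤ Re z ≤ L`; the metric is `exp (2 g (Re z)) |dz|²` on the larger cylinder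
`- δ' < Re z < L + δ'` (`z` modulo `2πi`), the curvature is at most `- κ` outside the cylinder
`- δ < Re z < L + δ`, and it vanishes of high order on the boundary of the flat cylinder. -/
structure Cls [TopologicalSpace M] (Ω : Set ℂ) (φ : ℂ → ℝ) (pr : ℂ → M) (L δ δ' κ C : ℝ)
    (g : ℝ → ℝ) : Prop where
  posL : 0 < L
  posδ : 0 < δ
  ltδ : δ < δ'
  posκ : 0 < κ
  strip : Stp L δ' ⊆ Ω
  rot : ∀ z ∈ Stp L δ', φ z = g z.re
  flat : ∀ x, 0 ≤ x → x ≤ L → g x = 0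
  per : ∀ z ∈ Stp L δ', pr (z + 2 * Real.pi * Complex.I) = pr z
  inj : ∀ z ∈ Stp L δ', ∀ w ∈ Stp L δ', pr z = pr w →
    ∃ n : ℤ, w = z + n * (2 * Real.pi * Complex.I)
  neg : ∀ z ∈ Ω, curv φ z ≤ 0
  low : ∀ z ∈ Ω, -κ < curv φ z → ∃ w ∈ Stp L δ, pr w = pr z
  zero : ∀ z ∈ Ω, curv φ z = 0 → ∃ w : ℂ, 0 ≤ w.re ∧ w.re ≤ L ∧ pr w = pr z
  der : ∀ z ∈ Ω, Real.exp (-φ z) * ‖fderiv ℝ (curv φ) z‖ ≤ C * |curv φ z| ^ (39 / 40 : ℝ)
  conn : IsPreconnected (univ : Set M)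

/-- the surface with the data `D` is the quotient of `Ω` with the metric `exp (2 φ) |dz|²` -/
def Compat (D : Pool.Agent.Y262.QE.Data M) (Ω : Set ℂ) (φ : ℂ → ℝ) (pr : ℂ → M) : Prop :=
  ∀ i, ∃ b : ℂ → ℂ, DifferentiableOn ℂ b (D.T i) ∧ ∀ z ∈ D.T i, b z ∈ Ω ∧ D.ψ i z = pr (b z) ∧
    deriv b z ≠ 0 ∧ ∀ v : ℂ, ‖D.A i z v‖ = Real.exp (φ (b z)) * ‖deriv b z‖ * ‖v‖

end

end Pool.Agent.Y262.EG
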