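import Pool.Agent.Y262.EG.Def

/-!
# Project EG: statements

The geodesic flow of a surface of the class `Cls` is ergodic.
-/

set_option autoImplicit false

open Set Filter Topology MeasureTheory
open scoped ContDiff

noncomputable section

namespace Pool.Agent.Y262.EG

/-! ### The Jacobi equation on the line -/

/-- fundamental solutions of `y'' = k y` -/
structure Jac (k c c1 s s1 : ℝ → ℝ) : Prop where
  kc : Continuous k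
  c0 : c 0 = 1
  c10 : c1 0 = 0
  s0 : s 0 = 0
  s10 : s1 0 = 1
  dc : ∀ t, HasDerivAt c (c1 t) t
  dc1 : ∀ t, HasDerivAt c1 (k t * c t) t
  ds : ∀ t, HasDerivAt s (s1 t) t
  ds1 : ∀ t, HasDerivAt s1 (k t * s t) t

/-- basic properties of the solutions of the Jacobi equation in nonpositive curvature: here
`y = c + u s` with `u = - c T / s T` is the solution with `y 0 = 1`, `y T = 0`, and `y1` is its
derivative -/
def StJac1 : Prop :=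
  ∀ k c c1 s s1 : ℝ → ℝ, Jac k c c1 s s1 → (∀ t, 0 ≤ k t) →
    (∀ t, c t * s1 t - c1 t * s t = 1) ∧ (∀ t, 0 < t → t ≤ s t) ∧ (∀ t, t < 0 → s t ≤ t) ∧
    ∀ (T : ℝ) (u : ℝ) (y y1 : ℝ → ℝ), 0 < T → u = -(c T / s T) → (∀ t, y t = c t + u * s t) →
      (∀ t, y1 t = c1 t + u * s1 t) →
      u ≤ -(1 / T) ∧ (∀ t ∈ Icc 0 T, 0 ≤ y t ∧ y t ≤ 1 ∧ y1 t ≤ 0 ∧ 0 ≤ s t ∧ y t * s t ≤ t) ∧
      (∀ t, y t * s1 t - y1 t * s t = 1) ∧ AntitoneOn y (Icc 0 T) ∧ MonotoneOn y1 (Icc 0 T) ∧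
      (∫ t in (0 : ℝ)..T, k t * y t * (y t * s t)) ≤ 2 ∧ (∫ t in (0 : ℝ)..T, k t * y t) ≤ -u

/-- bounds for the slope, contraction, decay of the derivative -/
def StJac2 : Prop :=
  ∀ k c c1 s s1 : ℝ → ℝ, Jac k c c1 s s1 → (∀ t, 0 ≤ k t) →
    ∀ (T : ℝ) (u : ℝ) (y y1 : ℝ → ℝ), 0 < T → u = -(c T / s T) → (∀ t, y t = c t + u * s t) →
      (∀ t, y1 t = c1 t + u * s1 t) →
      (∀ κ, 1 ≤ T → (∀ t ∈ Icc (0 : ℝ) 1, k t ≤ κ) → -u ≤ 1 + κ / 2) ∧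
      (∀ a τ κ, 0 ≤ a → 0 ≤ τ → a + τ ≤ T → 0 ≤ κ → (∀ t ∈ Icc a (a + τ), κ ≤ k t) →
        y (a + τ) * (1 + κ * τ ^ 2 / 2) ≤ y a) ∧
      (∀ τ κ, 0 < τ → τ ≤ T → 0 ≤ κ → (∀ t ∈ Icc 0 τ, κ ≤ k t) →
        min (κ * τ / 2) (1 / (2 * τ)) ≤ -u) ∧
      ∀ t, 1 ≤ t → t ≤ T → |y1 t| ≤ y (t - 1)

/-- the integrals in the variation formula -/
def StJac3 : Prop :=
  ∀ k c c1 s s1 : ℝ → ℝ, Jac k c c1 s s1 → (∀ t, 0 ≤ k t) →
    ∀ (T : ℝ) (u : ℝ) (y : ℝ → ℝ), 0 < T → u = -(c T / s T) → (∀ t, y t = c t + u * s t) →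
      ∀ (d : ℝ → ℝ) (C : ℝ), Continuous d → 0 ≤ C → (∀ t, |d t| ≤ C * (k t) ^ (39 / 40 : ℝ)) →
      |∫ t in (0 : ℝ)..T, (y t) ^ 2 * s t * d t| ≤
        2 * C * (∫ t in (0 : ℝ)..T, (1 + t) * y t) ^ (1 / 40 : ℝ) ∧
      |∫ t in (0 : ℝ)..T, (y t) ^ 2 * c t * d t| ≤
        3 * C * (1 - u) * (∫ t in (0 : ℝ)..T, (1 + t) * y t) ^ (1 / 40 : ℝ)

/-! ### The abstract theorem -/

section abs

variable {P : Type}

/-- `d` is a derivation on the functions of class `Ac` which is given by a vector field that preserves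
the measure -/
structure Dv [TopologicalSpace P] [MeasurableSpace P] (m : Measure P) (Ac : (P → ℝ) → Prop)
    (d : (P → ℝ) → P → ℝ) : Prop where
  ct : ∀ F, Ac F → Continuous (d F)
  add : ∀ F G, Ac F → Ac G → ∀ (α β : ℝ) (x : P),
    d (fun x => α * F x + β * G x) x = α * d F x + β * d G x
  mul : ∀ F G, Ac F → Ac G → ∀ x, d (fun x => F x * G x) x = d F x * G x + F x * d G x
  inv : ∀ F, Ac F → (∀ x, F x ≠ 0) → ∀ x, d (fun x => (F x)⁻¹) x = -(d F x / (F x) ^ 2)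
  ibp : ∀ F, Ac F → ∫ x, d F x ∂m = 0
  loc : ∀ F, Ac F → ∀ x, (∀ᶠ y in 𝓝 x, F y = 0) → d F x = 0

/-- the slope at `0` of the solution of the Jacobi equation with `y 0 = 1`, `y T = 0` -/
def uu (c s : ℝ → P → ℝ) (T : ℝ) (x : P) : ℝ := -(c T x / s T x)

/-- the solution of the Jacobi equation with `y 0 = 1`, `y T = 0` -/
def yy (c s : ℝ → P → ℝ) (T t : ℝ) (x : P) : ℝ := c t x + uu c s T x * s t x

/-- everything which is needed of the unit tangent bundle `P` of the surface: the Liouville measure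
`m`, the geodesic flow `Fl`, the `C¹` functions `Ac`, the derivations `dX`, `dH`, `dV` of the frame,
minus the curvature `k`, the fundamental solutions `c`, `s` of the Jacobi equation and their
derivatives `c1`, `s1` -/
structure Pk [TopologicalSpace P] [MeasurableSpace P] (m : Measure P) (Fl : ℝ → P → P)
    (Ac : (P → ℝ) → Prop) (dX dH dV : (P → ℝ) → P → ℝ) (k : P → ℝ) (c c1 s s1 : ℝ → P → ℝ) :
    Prop where
  fin : IsFiniteMeasure m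
  flc : Continuous fun a : ℝ × P => Fl a.1 a.2
  fl0 : ∀ x, Fl 0 x = x
  fla : ∀ t t' x, Fl (t + t') x = Fl t (Fl t' x)
  flm : ∀ t, MeasurePreserving (Fl t) m m
  ct : ∀ F, Ac F → Continuous F
  cst : Ac fun _ => 1
  add : ∀ F G, Ac F → Ac G → ∀ α β : ℝ, Ac fun x => α * F x + β * G x
  mul : ∀ F G, Ac F → Ac G → Ac fun x => F x * G x
  inv : ∀ F, Ac F → (∀ x, F x ≠ 0) → Ac fun x => (F x)⁻¹
  dvX : Dv m Ac dX
  dvH : Dv m Ac dH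
  dvV : Dv m Ac dV
  dens : ∀ f : P → ℝ, Measurable f → (∃ C, ∀ x, |f x| ≤ C) → ∀ ε : ℝ, 0 < ε →
    ∃ g, Ac g ∧ ∫ x, (f x - g x) ^ 2 ∂m ≤ ε
  cmp : ∀ F, Ac F → ∀ t, Ac (fun x => F (Fl t x)) ∧ ∀ x,
    dX (fun x => F (Fl t x)) x = dX F (Fl t x) ∧
    dV (fun x => F (Fl t x)) x = s t x * dH F (Fl t x) + s1 t x * dV F (Fl t x) ∧
    dH (fun x => F (Fl t x)) x = c t x * dH F (Fl t x) + c1 t x * dV F (Fl t x)
  alg : ∀ F, Ac F → ∀ x t, HasDerivAt (fun τ => F (Fl τ x)) (dX F (Fl t x)) t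
  kA : Ac k
  k0 : ∀ x, 0 ≤ k x
  kV : ∀ x, dV k x = 0
  kH : ∃ C : ℝ, ∀ x, |dH k x| ≤ C * (k x) ^ (39 / 40 : ℝ)
  jc : (Continuous fun a : ℝ × P => c a.1 a.2) ∧ (Continuous fun a : ℝ × P => c1 a.1 a.2) ∧
    (Continuous fun a : ℝ × P => s a.1 a.2) ∧ Continuous fun a : ℝ × P => s1 a.1 a.2
  jac : ∀ x, Jac (fun t => k (Fl t x)) (fun t => c t x) (fun t => c1 t x) (fun t => s t x)
    (fun t => s1 t x)
  uA : ∀ T, T ≠ 0 → Ac (uu c s T) ∧ ∀ x,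
    dV (uu c s T) x = -∫ t in (0 : ℝ)..T, (yy c s T t x) ^ 2 * s t x * dH k (Fl t x) ∧
    dH (uu c s T) x = -∫ t in (0 : ℝ)..T, (yy c s T t x) ^ 2 * c t x * dH k (Fl t x)
  cl : ∃ κ C : ℝ, 0 < κ ∧ ∀ l : ℝ, 1 ≤ l →
    m {x | ∀ t ∈ Icc 0 l, k (Fl t x) < κ} ≤ ENNReal.ofReal (C / Real.sqrt l)

end abs

/-- the reversed flow -/
def StRev : Prop :=
  ∀ (P : Type) [MetricSpace P] [CompactSpace P] [MeasurableSpace P] [BorelSpace P] (m : Measure P)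
    (Fl : ℝ → P → P) (Ac : (P → ℝ) → Prop) (dX dH dV : (P → ℝ) → P → ℝ) (k : P → ℝ)
    (c c1 s s1 : ℝ → P → ℝ), Pk m Fl Ac dX dH dV k c c1 s s1 →
    Pk m (fun t x => Fl (-t) x) Ac (fun F x => -dX F x) (fun F x => -dH F x) dV k
      (fun t x => c (-t) x) (fun t x => -c1 (-t) x) (fun t x => -s (-t) x) (fun t x => s1 (-t) x)

/-- the sets where the curvature is small for a long time -/
def StBad : Prop :=
  ∀ (P : Type) [MetricSpace P] [CompactSpace P] [MeasurableSpace P] [BorelSpace P] (m : Measure P)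
    (Fl : ℝ → P → P) (Ac : (P → ℝ) → Prop) (dX dH dV : (P → ℝ) → P → ℝ) (k : P → ℝ)
    (c c1 s s1 : ℝ → P → ℝ), Pk m Fl Ac dX dH dV k c c1 s s1 →
    ∃ (C ρ : ℝ) (B : ℕ → Set P), 0 < ρ ∧ ρ < 1 ∧ (∀ J, MeasurableSet (B J)) ∧
      (∀ J : ℕ, m (B J) ≤ ENNReal.ofReal (C * (2 : ℝ) ^ (-(J : ℝ) / 8))) ∧
      ∀ (J : ℕ) (x : P), x ∉ B J → ∀ T : ℝ, (2 : ℝ) ^ J ≤ T →
        yy c s T ((2 : ℝ) ^ J) x ≤ C * ρ ^ ((2 : ℝ) ^ ((J : ℝ) / 4))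

/-- the moments and the decay of the solutions of the Jacobi equation -/
def StTail : Prop :=
  ∀ (P : Type) [MetricSpace P] [CompactSpace P] [MeasurableSpace P] [BorelSpace P] (m : Measure P)
    (Fl : ℝ → P → P) (Ac : (P → ℝ) → Prop) (dX dH dV : (P → ℝ) → P → ℝ) (k : P → ℝ)
    (c c1 s s1 : ℝ → P → ℝ), Pk m Fl Ac dX dH dV k c c1 s s1 →
    (∃ C : ℝ, ∀ T : ℝ, 1 ≤ T →
      ∫⁻ x, ENNReal.ofReal ((∫ t in (0 : ℝ)..T, (1 + t) * yy c s T t x) ^ (1 / 20 : ℝ)) ∂m ≤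
        ENNReal.ofReal C) ∧
    ∀ᵐ x ∂m, ∀ ε : ℝ, 0 < ε → ∃ t0 : ℝ, ∀ t T : ℝ, t0 ≤ t → t ≤ T → yy c s T t x ≤ ε

/-- the second moments of the derivatives of the slope -/
def StL2 : Prop :=
  ∀ (P : Type) [MetricSpace P] [CompactSpace P] [MeasurableSpace P] [BorelSpace P] (m : Measure P)
    (Fl : ℝ → P → P) (Ac : (P → ℝ) → Prop) (dX dH dV : (P → ℝ) → P → ℝ) (k : P → ℝ)
    (c c1 s s1 : ℝ → P → ℝ), Pk m Fl Ac dX dH dV k c c1 s s1 →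
    ∃ C : ℝ, ∀ T : ℝ, 1 ≤ T → (∀ x, |uu c s T x| ≤ C) ∧
      ∫ x, ((dH (uu c s T) x) ^ 2 + (dV (uu c s T) x) ^ 2) ∂m ≤ C

/-- the forward estimate: invariant functions are constant along the stable direction -/
def StFwd : Prop :=
  ∀ (P : Type) [MetricSpace P] [CompactSpace P] [MeasurableSpace P] [BorelSpace P] (m : Measure P)
    (Fl : ℝ → P → P) (Ac : (P → ℝ) → Prop) (dX dH dV : (P → ℝ) → P → ℝ) (k : P → ℝ)
    (c c1 s s1 : ℝ → P → ℝ), Pk m Fl Ac dX dH dV k c c1 s s1 →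
    ∀ f : P → ℝ, Measurable f → (∃ C, ∀ x, |f x| ≤ C) → (∀ t x, f (Fl t x) = f x) →
    ∀ (ψ : ℝ → P → ℝ) (C : ℝ), (∀ T, 1 ≤ T → Ac (ψ T) ∧ (∀ x, |ψ T x| ≤ C) ∧
      ∫ x, ((dH (ψ T) x) ^ 2 + (dV (ψ T) x) ^ 2) ∂m ≤ C) →
    Tendsto (fun T => ∫ x, f x * (dH (ψ T) x + dV (fun x => uu c s T x * ψ T x) x) ∂m) atTop (𝓝 0)

/-- the weak derivatives of an invariant function vanish where the curvature is negative -/
def StKill : Prop :=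
  ∀ (P : Type) [MetricSpace P] [CompactSpace P] [MeasurableSpace P] [BorelSpace P] (m : Measure P)
    (Fl : ℝ → P → P) (Ac : (P → ℝ) → Prop) (dX dH dV : (P → ℝ) → P → ℝ) (k : P → ℝ)
    (c c1 s s1 : ℝ → P → ℝ), Pk m Fl Ac dX dH dV k c c1 s s1 →
    ∀ f : P → ℝ, Measurable f → (∃ C, ∀ x, |f x| ≤ C) → (∀ t x, f (Fl t x) = f x) →
    ∀ (χ : P → ℝ) (ε : ℝ), Ac χ → 0 < ε → (∀ x, χ x ≠ 0 → ε ≤ k x) →
    ∫ x, f x * dX χ x ∂m = 0 ∧ ∫ x, f x * dH χ x ∂m = 0 ∧ ∫ x, f x * dV χ x ∂m = 0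

/-! ### The geodesic flow in the plane domain -/

/-- uniqueness and the group law -/
def StUniq : Prop :=
  ∀ (Ω : Set ℂ) (φ : ℂ → ℝ), IsOpen Ω → ContDiffOn ℝ ∞ φ Ω →
    (∀ (a b : ℝ → Y) (I : Set ℝ), IsOpen I → IsPreconnected I → (∀ t ∈ I, a t ∈ YO Ω ∧ b t ∈ YO Ω) →
      (∀ t ∈ I, HasDerivAt a (XX φ (a t)) t ∧ HasDerivAt b (XX φ (b t)) t) →
      ∀ t0 ∈ I, a t0 = b t0 → ∀ t ∈ I, a t = b t) ∧
    ∀ Fl : ℝ → Y → Y, IsGeo Ω φ Fl → ∀ t t', ∀ p ∈ YO Ω, Fl (t + t') p = Fl t (Fl t' p)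

/-- the commutators of the frame -/
def StFrame : Prop :=
  ∀ (Ω : Set ℂ) (φ : ℂ → ℝ), IsOpen Ω → ContDiffOn ℝ ∞ φ Ω →
    ContDiffOn ℝ ∞ (XX φ) (YO Ω) ∧ ContDiffOn ℝ ∞ (HH φ) (YO Ω) ∧ ContDiffOn ℝ ∞ (curv φ) Ω ∧
    ∀ p ∈ YO Ω, fderiv ℝ (XX φ) p VV = HH φ p ∧ fderiv ℝ (HH φ) p VV = -XX φ p ∧
      fderiv ℝ (HH φ) p (XX φ p) - fderiv ℝ (XX φ) p (HH φ p) = curv φ p.1 • VV

/-- the derivative of the geodesic flow in the frame -/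
structure Coc (Ω : Set ℂ) (φ : ℂ → ℝ) (Fl : ℝ → Y → Y) (c c1 s s1 : ℝ → Y → ℝ) : Prop where
  smc : ContDiffOn ℝ ∞ (fun a : ℝ × Y => c a.1 a.2) {a | a.2 ∈ YO Ω}
  smc1 : ContDiffOn ℝ ∞ (fun a : ℝ × Y => c1 a.1 a.2) {a | a.2 ∈ YO Ω}
  sms : ContDiffOn ℝ ∞ (fun a : ℝ × Y => s a.1 a.2) {a | a.2 ∈ YO Ω}
  sms1 : ContDiffOn ℝ ∞ (fun a : ℝ × Y => s1 a.1 a.2) {a | a.2 ∈ YO Ω}
  jac : ∀ p ∈ YO Ω, Jac (fun t => -curv φ (Fl t p).1) (fun t => c t p) (fun t => c1 t p)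
    (fun t => s t p) (fun t => s1 t p)
  V : ∀ t, ∀ p ∈ YO Ω, fderiv ℝ (Fl t) p VV = s t p • HH φ (Fl t p) + s1 t p • VV
  H : ∀ t, ∀ p ∈ YO Ω, fderiv ℝ (Fl t) p (HH φ p) = c t p • HH φ (Fl t p) + c1 t p • VV
  X : ∀ t, ∀ p ∈ YO Ω, fderiv ℝ (Fl t) p (XX φ p) = XX φ (Fl t p)

/-- existence of the cocycle -/
def StCoc : Prop :=
  ∀ (Ω : Set ℂ) (φ : ℂ → ℝ) (Fl : ℝ → Y → Y), IsOpen Ω → ContDiffOn ℝ ∞ φ Ω → IsGeo Ω φ Fl →
    ∃ c c1 s s1 : ℝ → Y → ℝ, Coc Ω φ Fl c c1 s s1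

/-- Liouville's theorem in the plane domain -/
def StLiouUp : Prop :=
  ∀ (Ω : Set ℂ) (φ : ℂ → ℝ) (Fl : ℝ → Y → Y), IsOpen Ω → ContDiffOn ℝ ∞ φ Ω → IsGeo Ω φ Fl →
    ∀ (t : ℝ) (B : Set Y), MeasurableSet B → B ⊆ YO Ω → MeasurableSet (Fl t '' B) ∧
      ∫⁻ p in Fl t '' B, ENNReal.ofReal (Real.exp (2 * φ p.1)) =
        ∫⁻ p in B, ENNReal.ofReal (Real.exp (2 * φ p.1))

/-- the three vector fields of the frame -/
def Fr (φ : ℂ → ℝ) (W : Y → Y) : Prop := W = XX φ ∨ W = HH φ ∨ W = fun _ => VV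

/-- the frame is divergence free for the Liouville measure -/
def StDivUp : Prop :=
  ∀ (Ω : Set ℂ) (φ : ℂ → ℝ), IsOpen Ω → ContDiffOn ℝ ∞ φ Ω → ∀ W, Fr φ W →
    ∀ u : Y → ℝ, ContDiff ℝ 1 u → HasCompactSupport u → tsupport u ⊆ YO Ω →
      ∫ p, fderiv ℝ u p (W p) * Real.exp (2 * φ p.1) = 0

/-- the variation formula for the slopes -/
def StVarUp : Prop :=
  ∀ (Ω : Set ℂ) (φ : ℂ → ℝ) (Fl : ℝ → Y → Y), IsOpen Ω → ContDiffOn ℝ ∞ φ Ω → IsGeo Ω φ Fl →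
    (∀ z ∈ Ω, curv φ z ≤ 0) → ∀ c c1 s s1 : ℝ → Y → ℝ, Coc Ω φ Fl c c1 s s1 →
    ∀ T : ℝ, T ≠ 0 → ContDiffOn ℝ ∞ (uu c s T) (YO Ω) ∧ ∀ p ∈ YO Ω,
      fderiv ℝ (uu c s T) p VV = ∫ t in (0 : ℝ)..T, (yy c s T t p) ^ 2 * s t p *
        fderiv ℝ (curv φ) (Fl t p).1 (HH φ (Fl t p)).1 ∧
      fderiv ℝ (uu c s T) p (HH φ p) = ∫ t in (0 : ℝ)..T, (yy c s T t p) ^ 2 * c t p *
        fderiv ℝ (curv φ) (Fl t p).1 (HH φ (Fl t p)).1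

/-! ### The unit tangent bundle -/

/-- the lift of a holomorphic local isometry to the unit vectors preserves the frame -/
def StGerm : Prop :=
  ∀ (Ω : Set ℂ) (φ : ℂ → ℝ) (z0 : ℂ) (r : ℝ) (γ : ℂ → ℂ), IsOpen Ω → ContDiffOn ℝ ∞ φ Ω → 0 < r →
    Metric.ball z0 r ⊆ Ω → DifferentiableOn ℂ γ (Metric.ball z0 r) →
    (∀ ζ ∈ Metric.ball z0 r, γ ζ ∈ Ω ∧ deriv γ ζ ≠ 0 ∧ φ (γ ζ) + Real.log ‖deriv γ ζ‖ = φ ζ) →
    (∀ ζ ∈ Metric.ball z0 r, curv φ (γ ζ) = curv φ ζ) ∧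
    ∀ a : ℝ, Complex.exp (a * Complex.I) * ‖deriv γ z0‖ = deriv γ z0 →
    ∃ (r' : ℝ) (τ : ℂ → ℝ), 0 < r' ∧ r' ≤ r ∧ τ z0 = a ∧
      (∀ ζ ∈ Metric.ball z0 r', Complex.exp (τ ζ * Complex.I) * ‖deriv γ ζ‖ = deriv γ ζ) ∧
      ContDiffOn ℝ ∞ (fun y : Y => ((γ y.1, y.2 + τ y.1) : Y)) {y | y.1 ∈ Metric.ball z0 r'} ∧
      ∀ y : Y, y.1 ∈ Metric.ball z0 r' →
        fderiv ℝ (fun y : Y => ((γ y.1, y.2 + τ y.1) : Y)) y (XX φ y) =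
          XX φ (γ y.1, y.2 + τ y.1) ∧
        fderiv ℝ (fun y : Y => ((γ y.1, y.2 + τ y.1) : Y)) y (HH φ y) =
          HH φ (γ y.1, y.2 + τ y.1) ∧
        fderiv ℝ (fun y : Y => ((γ y.1, y.2 + τ y.1) : Y)) y VV = VV

/-- the curvature and the length of its differential are invariant -/
def StInv : Prop :=
  ∀ (M P : Type) [MetricSpace M] [CompactSpace M] [MetricSpace P] [CompactSpace P] (Ω : Set ℂ)
    (φ : ℂ → ℝ) (pr : ℂ → M) (q : Y → P), IsUT Ω φ pr q → ∀ z ∈ Ω, ∀ w ∈ Ω, pr z = pr w →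
    curv φ z = curv φ w ∧
      Real.exp (-φ z) * ‖fderiv ℝ (curv φ) z‖ = Real.exp (-φ w) * ‖fderiv ℝ (curv φ) w‖

/-- the map `q` is a local homeomorphism with deck germs that preserve the frame -/
def StEt : Prop :=
  ∀ (M P : Type) [MetricSpace M] [CompactSpace M] [MetricSpace P] [CompactSpace P] (Ω : Set ℂ)
    (φ : ℂ → ℝ) (pr : ℂ → M) (q : Y → P), IsUT Ω φ pr q →
    (∀ p ∈ YO Ω, ∃ r : ℝ, 0 < r ∧ Metric.ball p r ⊆ YO Ω ∧ InjOn q (Metric.ball p r)) ∧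
    (∀ p ∈ YO Ω, ∀ p' ∈ YO Ω, q p = q p' → pr p.1 = pr p'.1) ∧
    ∀ p ∈ YO Ω, ∀ p' ∈ YO Ω, q p = q p' → ∃ (U : Set Y) (A : Y → Y), IsOpen U ∧ p ∈ U ∧ U ⊆ YO Ω ∧
      ContDiffOn ℝ ∞ A U ∧ A p = p' ∧ ∀ y ∈ U, A y ∈ YO Ω ∧ q (A y) = q y ∧
        curv φ (A y).1 = curv φ y.1 ∧ fderiv ℝ A y (XX φ y) = XX φ (A y) ∧
        fderiv ℝ A y (HH φ y) = HH φ (A y) ∧ fderiv ℝ A y VV = VV

section

variable {P : Type}

/-- a section of `q` -/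
def lft (Ω : Set ℂ) (q : Y → P) (x : P) : Y := by
  classical
  exact if h : ∃ p, p ∈ YO Ω ∧ q p = x then h.choose else 0

/-- the `C¹` functions on the unit tangent bundle -/
def AcP (Ω : Set ℂ) (q : Y → P) (F : P → ℝ) : Prop := ContDiffOn ℝ 1 (fun p => F (q p)) (YO Ω)

/-- the derivative in the direction of a vector field of the frame -/
def dW (Ω : Set ℂ) (q : Y → P) (W : Y → Y) (F : P → ℝ) (x : P) : ℝ :=
  fderiv ℝ (fun p => F (q p)) (lft Ω q x) (W (lft Ω q x))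

/-- the geodesic flow on the unit tangent bundle -/
def FlP (Ω : Set ℂ) (q : Y → P) (Fl : ℝ → Y → Y) (t : ℝ) (x : P) : P := q (Fl t (lft Ω q x))

/-- a function of the time on the unit tangent bundle -/
def onP (Ω : Set ℂ) (q : Y → P) (c : ℝ → Y → ℝ) (t : ℝ) (x : P) : ℝ := c t (lft Ω q x)

/-- minus the curvature on the unit tangent bundle -/
def kP (Ω : Set ℂ) (φ : ℂ → ℝ) (q : Y → P) (x : P) : ℝ := -curv φ (lft Ω q x).1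

end

/-- the measure is finite and positive on open sets -/
def StFinP : Prop :=
  ∀ (M P : Type) [MetricSpace M] [CompactSpace M] [MetricSpace P] [CompactSpace P]
    [MeasurableSpace P] [BorelSpace P] (Ω : Set ℂ) (φ : ℂ → ℝ) (pr : ℂ → M) (q : Y → P)
    (m : Measure P), IsUT Ω φ pr q → IsLiou Ω φ q m →
    IsFiniteMeasure m ∧ (∀ O : Set P, IsOpen O → O.Nonempty → 0 < m O) ∧
      ∀ B : Set Y, MeasurableSet B → B ⊆ YO Ω → MeasurableSet (q '' B) ∧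
        (volume B = 0 → m (q '' B) = 0) ∧
        m (q '' B) ≤ ∫⁻ p in B, ENNReal.ofReal (Real.exp (2 * φ p.1))

/-- integration on the unit tangent bundle -/
def StCV : Prop :=
  ∀ (M P : Type) [MetricSpace M] [CompactSpace M] [MetricSpace P] [CompactSpace P]
    [MeasurableSpace P] [BorelSpace P] (Ω : Set ℂ) (φ : ℂ → ℝ) (pr : ℂ → M) (q : Y → P)
    (m : Measure P), IsUT Ω φ pr q → IsLiou Ω φ q m →
    ∀ B : Set Y, MeasurableSet B → B ⊆ YO Ω → InjOn q B → MeasurableSet (q '' B) ∧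
      (∀ G : P → ENNReal, Measurable G → ∫⁻ x in q '' B, G x ∂m =
        ∫⁻ p in B, G (q p) * ENNReal.ofReal (Real.exp (2 * φ p.1))) ∧
      ∀ G : P → ℝ, Measurable G → ∫ x in q '' B, G x ∂m =
        ∫ p in B, G (q p) * Real.exp (2 * φ p.1)

/-- the frame acts on functions on the unit tangent bundle -/
def StDWP : Prop :=
  ∀ (M P : Type) [MetricSpace M] [CompactSpace M] [MetricSpace P] [CompactSpace P]
    (Ω : Set ℂ) (φ : ℂ → ℝ) (pr : ℂ → M) (q : Y → P), IsUT Ω φ pr q →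
    (∀ x, lft Ω q x ∈ YO Ω ∧ q (lft Ω q x) = x) ∧
    (∀ F : P → ℝ, ContinuousOn (fun p => F (q p)) (YO Ω) → Continuous F) ∧
    ∀ F, AcP Ω q F → Continuous F ∧ ∀ W, Fr φ W →
      (∀ p ∈ YO Ω, dW Ω q W F (q p) = fderiv ℝ (fun p => F (q p)) p (W p)) ∧
      Continuous (dW Ω q W F)

/-- the frame acts by measure preserving derivations -/
def StDvP : Prop :=
  ∀ (M P : Type) [MetricSpace M] [CompactSpace M] [MetricSpace P] [CompactSpace P]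
    [MeasurableSpace P] [BorelSpace P] (Ω : Set ℂ) (φ : ℂ → ℝ) (pr : ℂ → M) (q : Y → P)
    (m : Measure P), IsUT Ω φ pr q → IsLiou Ω φ q m → ∀ W, Fr φ W →
    Dv m (AcP Ω q) (dW Ω q W)

/-- closure properties of the `C¹` functions -/
def StAlgP : Prop :=
  ∀ (M P : Type) [MetricSpace M] [CompactSpace M] [MetricSpace P] [CompactSpace P]
    (Ω : Set ℂ) (φ : ℂ → ℝ) (pr : ℂ → M) (q : Y → P), IsUT Ω φ pr q →
    (AcP Ω q fun _ => 1) ∧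
    (∀ F G, AcP Ω q F → AcP Ω q G → ∀ α β : ℝ, AcP Ω q fun x => α * F x + β * G x) ∧
    (∀ F G, AcP Ω q F → AcP Ω q G → AcP Ω q fun x => F x * G x) ∧
    ∀ F, AcP Ω q F → (∀ x, F x ≠ 0) → AcP Ω q fun x => (F x)⁻¹

/-- test functions can be pushed down -/
def StPush : Prop :=
  ∀ (M P : Type) [MetricSpace M] [CompactSpace M] [MetricSpace P] [CompactSpace P]
    (Ω : Set ℂ) (φ : ℂ → ℝ) (pr : ℂ → M) (q : Y → P), IsUT Ω φ pr q →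
    ∀ p ∈ YO Ω, ∃ r : ℝ, 0 < r ∧ Metric.ball p r ⊆ YO Ω ∧ InjOn q (Metric.ball p r) ∧
      ∀ u : Y → ℝ, ContDiff ℝ 1 u → HasCompactSupport u → tsupport u ⊆ Metric.ball p r →
      ∃ F : P → ℝ, AcP Ω q F ∧ (∀ y ∈ Metric.ball p r, F (q y) = u y) ∧
        ∀ x, x ∉ q '' tsupport u → F x = 0

/-- density of the `C¹` functions -/
def StDens : Prop :=
  ∀ (M P : Type) [MetricSpace M] [CompactSpace M] [MetricSpace P] [CompactSpace P]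
    [MeasurableSpace P] [BorelSpace P] (Ω : Set ℂ) (φ : ℂ → ℝ) (pr : ℂ → M) (q : Y → P)
    (m : Measure P), IsUT Ω φ pr q → IsFiniteMeasure m →
    ∀ f : P → ℝ, Measurable f → (∃ C, ∀ x, |f x| ≤ C) → ∀ ε : ℝ, 0 < ε →
      ∃ g, AcP Ω q g ∧ ∫ x, (f x - g x) ^ 2 ∂m ≤ ε

/-- the geodesic flow on the unit tangent bundle -/
def StFlP : Prop :=
  ∀ (M P : Type) [MetricSpace M] [CompactSpace M] [MetricSpace P] [CompactSpace P]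
    (Ω : Set ℂ) (φ : ℂ → ℝ) (pr : ℂ → M) (q : Y → P)
    (Fl : ℝ → Y → Y), IsUT Ω φ pr q → IsGeo Ω φ Fl →
    (∀ t, ∀ p ∈ YO Ω, FlP Ω q Fl t (q p) = q (Fl t p)) ∧
    (Continuous fun a : ℝ × P => FlP Ω q Fl a.1 a.2) ∧ (∀ x, FlP Ω q Fl 0 x = x) ∧
    ∀ t t' x, FlP Ω q Fl (t + t') x = FlP Ω q Fl t (FlP Ω q Fl t' x)

/-- the geodesic flow preserves the Liouville measure -/
def StMpP : Prop :=
  ∀ (M P : Type) [MetricSpace M] [CompactSpace M] [MetricSpace P] [CompactSpace P]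
    [MeasurableSpace P] [BorelSpace P] (Ω : Set ℂ) (φ : ℂ → ℝ) (pr : ℂ → M) (q : Y → P)
    (m : Measure P) (Fl : ℝ → Y → Y), IsUT Ω φ pr q → IsLiou Ω φ q m → IsGeo Ω φ Fl →
    ∀ t, MeasurePreserving (FlP Ω q Fl t) m m

/-- the geodesic flow and the `C¹` functions -/
def StAlP : Prop :=
  ∀ (M P : Type) [MetricSpace M] [CompactSpace M] [MetricSpace P] [CompactSpace P]
    (Ω : Set ℂ) (φ : ℂ → ℝ) (pr : ℂ → M) (q : Y → P)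
    (Fl : ℝ → Y → Y), IsUT Ω φ pr q → IsGeo Ω φ Fl →
    ∀ F, AcP Ω q F → (∀ t, AcP Ω q fun x => F (FlP Ω q Fl t x)) ∧
      ∀ x t, HasDerivAt (fun τ => F (FlP Ω q Fl τ x)) (dW Ω q (XX φ) F (FlP Ω q Fl t x)) t

/-- the cocycle on the unit tangent bundle -/
def StCocP : Prop :=
  ∀ (M P : Type) [MetricSpace M] [CompactSpace M] [MetricSpace P] [CompactSpace P]
    [MeasurableSpace P] [BorelSpace P] (Ω : Set ℂ) (φ : ℂ → ℝ) (pr : ℂ → M) (q : Y → P)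
    (m : Measure P) (Fl : ℝ → Y → Y), IsUT Ω φ pr q → IsLiou Ω φ q m → IsGeo Ω φ Fl →
    ∀ c c1 s s1 : ℝ → Y → ℝ, Coc Ω φ Fl c c1 s s1 →
    (∀ t, ∀ p ∈ YO Ω, onP Ω q c t (q p) = c t p ∧ onP Ω q c1 t (q p) = c1 t p ∧
      onP Ω q s t (q p) = s t p ∧ onP Ω q s1 t (q p) = s1 t p ∧ kP Ω φ q (q p) = -curv φ p.1) ∧
    (Continuous fun a : ℝ × P => onP Ω q c a.1 a.2) ∧
    (Continuous fun a : ℝ × P => onP Ω q c1 a.1 a.2) ∧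
    (Continuous fun a : ℝ × P => onP Ω q s a.1 a.2) ∧
    (Continuous fun a : ℝ × P => onP Ω q s1 a.1 a.2) ∧
    (∀ x, Jac (fun t => kP Ω φ q (FlP Ω q Fl t x)) (fun t => onP Ω q c t x)
      (fun t => onP Ω q c1 t x) (fun t => onP Ω q s t x) (fun t => onP Ω q s1 t x)) ∧
    ∀ F, AcP Ω q F → ∀ t x,
      dW Ω q (XX φ) (fun x => F (FlP Ω q Fl t x)) x = dW Ω q (XX φ) F (FlP Ω q Fl t x) ∧
      dW Ω q (fun _ => VV) (fun x => F (FlP Ω q Fl t x)) x =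
        onP Ω q s t x * dW Ω q (HH φ) F (FlP Ω q Fl t x) +
          onP Ω q s1 t x * dW Ω q (fun _ => VV) F (FlP Ω q Fl t x) ∧
      dW Ω q (HH φ) (fun x => F (FlP Ω q Fl t x)) x =
        onP Ω q c t x * dW Ω q (HH φ) F (FlP Ω q Fl t x) +
          onP Ω q c1 t x * dW Ω q (fun _ => VV) F (FlP Ω q Fl t x)

/-- the curvature on the unit tangent bundle -/
def StKP : Prop :=
  ∀ (M P : Type) [MetricSpace M] [CompactSpace M] [MetricSpace P] [CompactSpace P]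
    (Ω : Set ℂ) (φ : ℂ → ℝ) (pr : ℂ → M) (q : Y → P) (L δ δ' κ C : ℝ) (g : ℝ → ℝ),
    IsUT Ω φ pr q → Cls Ω φ pr L δ δ' κ C g →
    (∀ p ∈ YO Ω, kP Ω φ q (q p) = -curv φ p.1 ∧ dW Ω q (HH φ) (kP Ω φ q) (q p) =
      -fderiv ℝ (curv φ) p.1 (HH φ p).1) ∧
    AcP Ω q (kP Ω φ q) ∧ (∀ x, 0 ≤ kP Ω φ q x) ∧ (∀ x, dW Ω q (fun _ => VV) (kP Ω φ q) x = 0) ∧
    ∀ x, |dW Ω q (HH φ) (kP Ω φ q) x| ≤ C * (kP Ω φ q x) ^ (39 / 40 : ℝ)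

/-- Clairaut: an orbit which stays long in the cylinder is almost parallel to the closed geodesics -/
def StClair : Prop :=
  ∀ (Ω : Set ℂ) (φ : ℂ → ℝ) (L δ δ' : ℝ) (g : ℝ → ℝ), IsOpen Ω → ContDiffOn ℝ ∞ φ Ω →
    0 < L → 0 < δ → δ < δ' → Stp L δ' ⊆ Ω → (∀ z ∈ Stp L δ', φ z = g z.re) →
    (∀ x, 0 ≤ x → x ≤ L → g x = 0) → (∀ z ∈ Stp L δ', curv φ z ≤ 0) →
    ∃ C : ℝ, ∀ Fl : ℝ → Y → Y, IsGeo Ω φ Fl → ∀ l : ℝ, 1 ≤ l → ∀ p ∈ YO Ω,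
      (∀ t ∈ Icc 0 l, (Fl t p).1 ∈ Stp L δ) →
      |Real.exp (g p.1.re) * (|Real.sin p.2|) - 1| ≤ C / l

/-- the measure of the almost parallel vectors -/
def StSin : Prop :=
  ∃ C : ℝ, ∀ a ε : ℝ, 0 < a → 0 ≤ ε → ε ≤ 1 →
    volume {θ : ℝ | θ ∈ Icc 0 (2 * Real.pi) ∧ |a * (|Real.sin θ|) - 1| ≤ ε} ≤
      ENNReal.ofReal (C * Real.sqrt ε)

/-- few vectors stay long in the region of small curvature -/
def StClP : Prop :=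
  ∀ (M P : Type) [MetricSpace M] [CompactSpace M] [MetricSpace P] [CompactSpace P]
    [MeasurableSpace P] [BorelSpace P] (Ω : Set ℂ) (φ : ℂ → ℝ) (pr : ℂ → M) (q : Y → P)
    (m : Measure P) (Fl : ℝ → Y → Y) (L δ δ' κ C : ℝ) (g : ℝ → ℝ), IsUT Ω φ pr q →
    IsLiou Ω φ q m → IsGeo Ω φ Fl → Cls Ω φ pr L δ δ' κ C g →
    ∃ C' : ℝ, ∀ l : ℝ, 1 ≤ l →
      m {x | ∀ t ∈ Icc 0 l, kP Ω φ q (FlP Ω q Fl t x) < κ} ≤ ENNReal.ofReal (C' / Real.sqrt l)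

/-- the unit tangent bundle satisfies the hypotheses of the abstract theorem -/
def StPk : Prop :=
  ∀ (M P : Type) [MetricSpace M] [CompactSpace M] [MetricSpace P] [CompactSpace P]
    [MeasurableSpace P] [BorelSpace P] (Ω : Set ℂ) (φ : ℂ → ℝ) (pr : ℂ → M) (q : Y → P)
    (m : Measure P) (Fl : ℝ → Y → Y) (L δ δ' κ C : ℝ) (g : ℝ → ℝ), IsUT Ω φ pr q →
    IsLiou Ω φ q m → IsGeo Ω φ Fl → Cls Ω φ pr L δ δ' κ C g →
    ∃ c c1 s s1 : ℝ → P → ℝ, Pk m (FlP Ω q Fl) (AcP Ω q) (dW Ω q (XX φ)) (dW Ω q (HH φ))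
      (dW Ω q fun _ => VV) (kP Ω φ q) c c1 s s1

/-! ### From weak derivatives to ergodicity -/

/-- a bounded function with vanishing weak derivatives on a ball is constant -/
def StWeak : Prop :=
  ∀ (F : Y → ℝ) (p0 : Y) (r C : ℝ), 0 < r → AEStronglyMeasurable F volume → (∀ p, |F p| ≤ C) →
    (∀ u : Y → ℝ, ContDiff ℝ 1 u → HasCompactSupport u → tsupport u ⊆ Metric.ball p0 r →
      ∫ p, F p * fderiv ℝ u p ((1 : ℂ), (0 : ℝ)) = 0 ∧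
      ∫ p, F p * fderiv ℝ u p (Complex.I, (0 : ℝ)) = 0 ∧
      ∫ p, F p * fderiv ℝ u p ((0 : ℂ), (1 : ℝ)) = 0) →
    ∃ a : ℝ, ∀ᵐ p ∂volume.restrict (Metric.ball p0 r), F p = a

/-- invariant functions are locally constant where the curvature is negative -/
def StLoc : Prop :=
  ∀ (M P : Type) [MetricSpace M] [CompactSpace M] [MetricSpace P] [CompactSpace P]
    [MeasurableSpace P] [BorelSpace P] (Ω : Set ℂ) (φ : ℂ → ℝ) (pr : ℂ → M) (q : Y → P)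
    (m : Measure P), IsUT Ω φ pr q → IsLiou Ω φ q m →
    ∀ f : P → ℝ, Measurable f → (∃ C, ∀ x, |f x| ≤ C) →
    (∀ (χ : P → ℝ) (ε : ℝ), AcP Ω q χ → 0 < ε → (∀ x, χ x ≠ 0 → ε ≤ kP Ω φ q x) →
      ∀ W, Fr φ W → ∫ x, f x * dW Ω q W χ x ∂m = 0) →
    ∀ p0 ∈ YO Ω, curv φ p0.1 < 0 → ∃ (r a : ℝ), 0 < r ∧ Metric.ball p0 r ⊆ YO Ω ∧
      ∀ᵐ p ∂volume.restrict (Metric.ball p0 r), f (q p) = a

/-- `f` is locally constant where the curvature is negative, and the constants are given by a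
function `a` on the surface -/
def LocC {M P : Type} (Ω : Set ℂ) (φ : ℂ → ℝ) (pr : ℂ → M) (q : Y → P) (f : P → ℝ) (a : M → ℝ) :
    Prop :=
  ∀ p0 ∈ YO Ω, curv φ p0.1 < 0 → ∃ r : ℝ, 0 < r ∧ Metric.ball p0 r ⊆ YO Ω ∧
    (∀ p ∈ Metric.ball p0 r, curv φ p.1 < 0 ∧ a (pr p.1) = a (pr p0.1)) ∧
    ∀ᵐ p ∂volume.restrict (Metric.ball p0 r), f (q p) = a (pr p0.1)

/-- the local constants define a function on the surface -/
def StGlob1 : Prop :=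
  ∀ (M P : Type) [MetricSpace M] [CompactSpace M] [MetricSpace P] [CompactSpace P]
    (Ω : Set ℂ) (φ : ℂ → ℝ) (pr : ℂ → M) (q : Y → P), IsUT Ω φ pr q → ∀ f : P → ℝ,
    (∀ p0 ∈ YO Ω, curv φ p0.1 < 0 → ∃ (r a : ℝ), 0 < r ∧ Metric.ball p0 r ⊆ YO Ω ∧
      ∀ᵐ p ∂volume.restrict (Metric.ball p0 r), f (q p) = a) →
    ∃ a : M → ℝ, LocC Ω φ pr q f a

/-- the constants on the two sides of the cylinder agree -/
def StCross : Prop :=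
  ∀ (M P : Type) [MetricSpace M] [CompactSpace M] [MetricSpace P] [CompactSpace P]
    (Ω : Set ℂ) (φ : ℂ → ℝ) (pr : ℂ → M) (q : Y → P)
    (Fl : ℝ → Y → Y) (L δ δ' κ C : ℝ) (g : ℝ → ℝ), IsUT Ω φ pr q →
    IsGeo Ω φ Fl → Cls Ω φ pr L δ δ' κ C g →
    ∀ f : P → ℝ, (∀ t, ∀ p ∈ YO Ω, f (q (Fl t p)) = f (q p)) →
    ∀ a : M → ℝ, LocC Ω φ pr q f a → ∀ z ∈ Stp L δ', ∀ w ∈ Stp L δ', (z.re < 0 ∨ L < z.re) →
      (w.re < 0 ∨ L < w.re) → curv φ z < 0 ∧ a (pr z) = a (pr w)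

/-- a locally constant invariant function is constant -/
def StGlob : Prop :=
  ∀ (M P : Type) [MetricSpace M] [CompactSpace M] [MetricSpace P] [CompactSpace P]
    [MeasurableSpace P] [BorelSpace P] (Ω : Set ℂ) (φ : ℂ → ℝ) (pr : ℂ → M) (q : Y → P)
    (m : Measure P) (Fl : ℝ → Y → Y) (L δ δ' κ C : ℝ) (g : ℝ → ℝ), IsUT Ω φ pr q →
    IsLiou Ω φ q m → IsGeo Ω φ Fl → Cls Ω φ pr L δ δ' κ C g →
    ∀ f : P → ℝ, Measurable f → (∀ t x, f (FlP Ω q Fl t x) = f x) →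
    (∀ p0 ∈ YO Ω, curv φ p0.1 < 0 → ∃ (r a : ℝ), 0 < r ∧ Metric.ball p0 r ⊆ YO Ω ∧
      ∀ᵐ p ∂volume.restrict (Metric.ball p0 r), f (q p) = a) →
    ∃ a : ℝ, ∀ᵐ x ∂m, f x = a

/-- the geodesic flow of a surface of the class is ergodic -/
def StErg : Prop :=
  ∀ (M P : Type) [MetricSpace M] [CompactSpace M] [MetricSpace P] [CompactSpace P]
    [MeasurableSpace P] [BorelSpace P] (Ω : Set ℂ) (φ : ℂ → ℝ) (pr : ℂ → M) (q : Y → P)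
    (m : Measure P) (Fl : ℝ → Y → Y) (L δ δ' κ C : ℝ) (g : ℝ → ℝ), IsUT Ω φ pr q →
    IsLiou Ω φ q m → IsGeo Ω φ Fl → Cls Ω φ pr L δ δ' κ C g → Erg Ω q m Fl

/-! ### The family of metrics -/

/-- the metric `exp (s h) g` is of the same kind -/
def StUTs : Prop :=
  ∀ (M P : Type) [MetricSpace M] [CompactSpace M] [MetricSpace P] [CompactSpace P]
    (Ω : Set ℂ) (φ : ℂ → ℝ) (pr : ℂ → M) (q : Y → P), IsUT Ω φ pr q →
    ∀ h : M → ℝ, ContDiffOn ℝ ∞ (fun z => h (pr z)) Ω → ∀ s : ℝ,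
      IsUT Ω (fun z => φ z + s / 2 * h (pr z)) pr q ∧
      ∀ D : Pool.Agent.Y262.QE.Data M, Compat D Ω φ pr →
        Compat (D.conf fun x => Real.exp (s * h x)) Ω (fun z => φ z + s / 2 * h (pr z)) pr

/-- for small `s` the metric `exp (s h) g` belongs to the class -/
def StFam : Prop :=
  ∀ (M P : Type) [MetricSpace M] [CompactSpace M] [MetricSpace P] [CompactSpace P]
    (Ω : Set ℂ) (φ : ℂ → ℝ) (pr : ℂ → M) (q : Y → P) (L δ δ' κ C : ℝ) (g : ℝ → ℝ),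
    IsUT Ω φ pr q → Cls Ω φ pr L δ δ' κ C g →
    ∀ h : M → ℝ, ContDiffOn ℝ ∞ (fun z => h (pr z)) Ω → (∀ z ∈ Stp L δ', h (pr z) = 0) →
    ∃ s0 : ℝ, 0 < s0 ∧ ∀ s : ℝ, |s| < s0 →
      ∃ C' : ℝ, Cls Ω (fun z => φ z + s / 2 * h (pr z)) pr L δ δ' (κ / 2) C' g

end Pool.Agent.Y262.EG
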