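import Pool.Agent.Y262.EG.Stm
import Pool.Agent.Y903.EG.Jac1
import Pool.Agent.Y799.EG.Jac2
import Pool.Agent.Y252.EG.Jac3
import Pool.Agent.Y273.EG.Rev
import Pool.Agent.Y371.EG.Bad
import Pool.Agent.Y80.EG.Tail
import Pool.Agent.Y61.EG.L2
import Pool.Agent.Y832.EG.Fwd
import Pool.Agent.Y848.EG.Kill
import Pool.Agent.Y261.EG.Uniq
import Pool.Agent.Y779.EG.Frame
import Pool.Agent.Y338.EG.Coc
import Pool.Agent.Y257.EG.Div
import Pool.Agent.Y338.EG.Var
import Pool.Agent.Y46.EG.Germ
import Pool.Agent.Y447.EG.Inv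
import Pool.Agent.Y604.EG.FinP
import Pool.Agent.Y405.EG.Cv
import Pool.Agent.Y168.EG.Dwp
import Pool.Agent.Y447.EG.AlgErg
import Pool.Agent.Y385.EG.Dens
import Pool.Agent.Y10.EG.DvP
import Pool.Agent.Y857.EG.FlP
import Pool.Agent.Y261.EG.MpP
import Pool.Agent.Y799.EG.AlP
import Pool.Agent.Y588.EG.CocP
import Pool.Agent.Y117.EG.KP
import Pool.Agent.Y950.EG.Clair
import Pool.Agent.Y447.EG.Sinm
import Pool.Agent.Y693.EG.Clp
import Pool.Agent.Y380.EG.PK
import Pool.Agent.Y832.EG.Weak
import Pool.Agent.Y319.EG.Loc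
import Pool.Agent.Y61.EG.Glob1
import Pool.Agent.Y115.EG.Cross
import Pool.Agent.Y378.EG.Glob
import Pool.Agent.Y447.EG.UTs
import Pool.Agent.Y284.EG.Fam

/-!
# Project EG: assembly

The proofs of the parts are by helper903, helper799 and helper252 (Jacobi equation), helper273
(reversed flow), helper371, helper80 and helper61 (moments), helper832 (forward estimate, weak
derivatives), helper848 (weak derivatives of invariant functions), helper261 (uniqueness, invariance
of the measure), helper779 (frame), helper338 (cocycle, variation formula), helper257 (divergence),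
helper46 (germs), helper447 (invariance of the curvature, closure properties, sine, conformal changes,
ergodicity), helper604 (finiteness), helper405 (change of variables), helper168 (frame on the bundle,
push forward), helper385 (density), helper10 (integration by parts), helper857 (flow on the bundle),
helper588 (cocycle on the bundle), helper117 (curvature on the bundle), helper950 (Clairaut),
helper693 (orbits in the cylinder), helper380 (package), helper319 (local constancy), helper115
(crossing the cylinder), helper378 (global constancy), helper284 (family of metrics).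
-/

set_option autoImplicit false

open Set Filter Topology MeasureTheory
open scoped ContDiff

noncomputable section

namespace Pool.Agent.Y262.EG

theorem tJ1 : StJac1 := Pool.Agent.Y903.EG.jac1

theorem tJ2 : StJac2 := Pool.Agent.Y799.EG.jac2 tJ1

theorem tJ3 : StJac3 := Pool.Agent.Y252.EG.Jac3.jac3 tJ1

theorem tTail : StTail := Pool.Agent.Y80.EG.tail tJ1 (Pool.Agent.Y371.EG.bad tJ1 tJ2)

theorem tL2 : StL2 := Pool.Agent.Y61.EG.l2 tJ1 tJ2 tJ3 tTail

theorem tFwd : StFwd := Pool.Agent.Y832.EG.fwd tJ1 tJ2 tTail tL2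

theorem tKill : StKill := Pool.Agent.Y848.EG.kill tJ1 tJ2 Pool.Agent.Y273.EG.rev tL2 tFwd

theorem tUniq : StUniq := Pool.Agent.Y261.EG.Uniq.uniq

theorem tFrame : StFrame := Pool.Agent.Y779.EG.frame

theorem tCoc : StCoc := Pool.Agent.Y338.EG.coc tFrame tUniq

theorem tDivUp : StDivUp := Pool.Agent.Y257.EG2.divUp tFrame

theorem tVarUp : StVarUp := Pool.Agent.Y338.EG.varUp tJ1 tFrame

theorem tGerm : StGerm := Pool.Agent.Y46.EG.germ

theorem tInv : StInv := Pool.Agent.Y447.EG.inv tGerm

theorem tCV : StCV := Pool.Agent.Y405.EG.cv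

theorem tAlgP : StAlgP := Pool.Agent.Y447.EG.algP

theorem tWeak : StWeak := Pool.Agent.Y832.EG.weak

theorem tUTs : StUTs := Pool.Agent.Y447.EG.uTs

theorem tFam : StFam := Pool.Agent.Y284.EG.fam tFrame tInv tUTs

theorem tFinP (et : StEt) : StFinP := Pool.Agent.Y604.EG.finP et

theorem tDWP (et : StEt) : StDWP := Pool.Agent.Y168.EG.dWP tFrame et

theorem tPush (et : StEt) : StPush := Pool.Agent.Y168.EG.push et

theorem tDens (et : StEt) : StDens := Pool.Agent.Y385.EG.dens et (tDWP et) tAlgP (tPush et)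

theorem tDvP (et : StEt) : StDvP := Pool.Agent.Y10.EG.dvP tFrame (tDWP et) tAlgP (tPush et) tCV
  (tFinP et) tDivUp

theorem tFlP (et : StEt) : StFlP := Pool.Agent.Y857.EG.flP tUniq et (tDWP et)

theorem tMpP (et : StEt) (li : StLiouUp) : StMpP := Pool.Agent.Y261.EG.MpP.mpP tUniq li et
  (tFinP et) (tFlP et)

theorem tAlP (et : StEt) : StAlP := Pool.Agent.Y799.EG.alP (tDWP et) tFrame (tFlP et)

theorem tCocP (et : StEt) : StCocP := Pool.Agent.Y588.EG.cocP tUniq tFrame et (tDWP et) (tFlP et)
  (tAlP et)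

theorem tKP (et : StEt) : StKP := Pool.Agent.Y117.EG.kPt tFrame et (tDWP et)

theorem tClP (et : StEt) : StClP := Pool.Agent.Y693.EG.clP tUniq Pool.Agent.Y950.EG.clair
  Pool.Agent.Y447.EG.sinm et (tFinP et) (tFlP et) (tKP et)

theorem tPk (et : StEt) (li : StLiouUp) : StPk := Pool.Agent.Y380.EG.pk tUniq tFrame tCoc tVarUp et
  (tFinP et) (tDWP et) tAlgP (tDens et) (tDvP et) (tFlP et) (tMpP et li) (tAlP et) (tCocP et)
  (tKP et) (tClP et)

theorem tLoc (et : StEt) : StLoc := Pool.Agent.Y319.EG.loc tFrame et tWeak (tPush et) tCV (tDWP et)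

theorem tGlob (et : StEt) (li : StLiouUp) : StGlob := Pool.Agent.Y378.EG.glob tFrame et (tFinP et)
  (tFlP et) (tMpP et li) (tKP et) tInv (tClP et) (Pool.Agent.Y61.EG.glob1 tFrame et)
  (Pool.Agent.Y115.EG.cross tUniq tFrame)

theorem tErg (et : StEt) (li : StLiouUp) : StErg := Pool.Agent.Y447.EG.erg (tFlP et) (tKP et)
  (tPk et li) tKill (tLoc et) (tGlob et li)

end Pool.Agent.Y262.EG
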